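import Mathlib

set_option autoImplicit false

/-!
# The `L_1`-discrepancy suffers from the curse of dimensionality

The whole point is the elementary inequality `|Δ(t)| ≥ V - N V ^ 2`, `V = t_1 ⋯ t_d`, valid for
every `N`-point set, because the counting part of `Δ` only takes the values `0, 1/N, 2/N, …`.
-/

open MeasureTheory Set
open scoped ENNReal

namespace Pool.Agent.Results.MP_4b7d36_an.CurseL1

/-- The local discrepancy function of `x_1, …, x_N` at `t`:
`#{k : x_k ∈ [0,t)} / N - t_1 ⋯ t_d`. -/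
noncomputable def localDisc {N d : ℕ} (x : Fin N → Fin d → ℝ) (t : Fin d → ℝ) : ℝ :=
  (Nat.card {k : Fin N // ∀ i, 0 ≤ x k i ∧ x k i < t i} : ℝ) / N - ∏ i, t i

/-- The `L_1`-discrepancy of `x_1, …, x_N`: the integral of `|Δ|` over the unit cube. -/
noncomputable def L1disc {N d : ℕ} (x : Fin N → Fin d → ℝ) : ℝ :=
  ∫ t in Icc (0 : Fin d → ℝ) 1, |localDisc x t|

/-- `disc_1(N,d)`: the infimum of the `L_1`-discrepancy over all `N`-point sets (multisets)
in `[0,1)^d`. -/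
noncomputable def disc (N d : ℕ) : ℝ :=
  ⨅ x : Fin N → Fin d → Ico (0 : ℝ) 1, L1disc (fun k i => (x k i : ℝ))

/-- `disc_1(0,d) = 2^{-d}`, the initial discrepancy. -/
noncomputable def disc₀ (d : ℕ) : ℝ := (1 / 2) ^ d

/-- The inverse `N_1^disc(ε,d) = min {N ≥ 1 : disc_1(N,d) ≤ ε disc_1(0,d)}` of the minimal
`L_1`-discrepancy (with value `∞` if there were no such `N`). -/
noncomputable def Ninv (ε : ℝ) (d : ℕ) : ℕ∞ :=
  ⨅ N ∈ {N : ℕ | 1 ≤ N ∧ disc N d ≤ ε * disc₀ d}, (N : ℕ∞)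

/-- The curse of dimensionality for the `L_1`-discrepancy: there are `C > 1` and `ε₀ ∈ (0,1)`
with `N_1^disc(ε,d) ≥ C^d` for all `ε ∈ (0,ε₀)` and infinitely many `d`. -/
def Curse : Prop :=
  ∃ C : ℝ, 1 < C ∧ ∃ ε₀ : ℝ, 0 < ε₀ ∧ ε₀ < 1 ∧ ∃ S : Set ℕ, S.Infinite ∧
    ∀ d ∈ S, ∀ ε : ℝ, 0 < ε → ε < ε₀ → ENNReal.ofReal (C ^ d) ≤ (Ninv ε d : ℝ≥0∞)

section proof

variable {N d : ℕ}

lemma card_cases (x : Fin N → Fin d → ℝ) (t : Fin d → ℝ) :
    (Nat.card {k : Fin N // ∀ i, 0 ≤ x k i ∧ x k i < t i} : ℝ) = 0 ∨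
    (1 : ℝ) ≤ (Nat.card {k : Fin N // ∀ i, 0 ≤ x k i ∧ x k i < t i} : ℝ) := by
  rcases Nat.eq_zero_or_pos (Nat.card {k : Fin N // ∀ i, 0 ≤ x k i ∧ x k i < t i}) with h | h
  · left; rw [h]; simp
  · right; exact_mod_cast h

lemma key (hN : 1 ≤ N) (x : Fin N → Fin d → ℝ) (t : Fin d → ℝ) (ht : ∀ i, 0 ≤ t i) :
    (∏ i, t i) - N * (∏ i, t i) ^ 2 ≤ |localDisc x t| := by
  have hN' : (0 : ℝ) < N := by exact_mod_cast hN
  unfold localDisc
  set V : ℝ := ∏ i, t i with hV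
  have hV0 : 0 ≤ V := Finset.prod_nonneg fun i _ => ht i
  rcases card_cases x t with h | h
  · rw [h]
    have : |(0 : ℝ) / N - V| = V := by
      rw [zero_div, zero_sub, abs_neg, abs_of_nonneg hV0]
    rw [this]
    have : 0 ≤ N * V ^ 2 := by positivity
    linarith
  · set c : ℝ := (Nat.card {k : Fin N // ∀ i, 0 ≤ x k i ∧ x k i < t i} : ℝ) with hc
    rcases le_or_gt V (1 / N) with h1 | h1
    · have h2 : 1 / (N : ℝ) ≤ c / N := by gcongr
      have h3 : V - N * V ^ 2 ≤ 1 / N - V := by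
        have h4 : 1 / (N : ℝ) - V - (V - N * V ^ 2) = (1 / N) * ((1 - N * V) ^ 2) := by
          field_simp
          try ring
        have h5 : 0 ≤ (1 / (N : ℝ)) * ((1 - N * V) ^ 2) := by positivity
        linarith
      calc V - N * V ^ 2 ≤ 1 / N - V := h3
        _ ≤ c / N - V := by linarith
        _ ≤ |c / N - V| := le_abs_self _
    · have h2 : 1 < N * V := by
        rw [div_lt_iff₀ hN'] at h1
        linarith
      have h3 : V - N * V ^ 2 ≤ 0 := by nlinarith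
      exact h3.trans (abs_nonneg _)

lemma restrict_eq (d : ℕ) : (volume : Measure (Fin d → ℝ)).restrict (Icc (0 : Fin d → ℝ) 1) =
    Measure.pi (fun _ => (volume : Measure ℝ).restrict (Icc 0 1)) := by
  rw [← Measure.restrict_pi_pi, Set.pi_univ_Icc]
  rfl

lemma integral_prod_pow (d k : ℕ) :
    ∫ t in Icc (0 : Fin d → ℝ) 1, (∏ i, t i) ^ k = (1 / (k + 1 : ℝ)) ^ d := by
  rw [restrict_eq]
  have h : ∀ t : Fin d → ℝ, (∏ i, t i) ^ k = ∏ i, (fun s : ℝ => s ^ k) (t i) := by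
    intro t; rw [Finset.prod_pow]
  simp_rw [h]
  rw [integral_fintype_prod_eq_prod (fun _ => fun s : ℝ => s ^ k)]
  rw [Finset.prod_const, Finset.card_univ, Fintype.card_fin]
  congr 1
  rw [integral_Icc_eq_integral_Ioc, ← intervalIntegral.integral_of_le zero_le_one, integral_pow]
  simp

lemma measurable_localDisc (x : Fin N → Fin d → ℝ) : Measurable (localDisc x) := by
  unfold localDisc
  refine Measurable.sub ?_ (Finset.measurable_prod _ fun i _ => measurable_pi_apply i)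
  refine Measurable.div_const ?_ _
  have h : (fun t : Fin d → ℝ =>
      (Nat.card {k : Fin N // ∀ i, 0 ≤ x k i ∧ x k i < t i} : ℝ)) =
      fun t => ∑ k : Fin N, ({s : Fin d → ℝ | ∀ i, 0 ≤ x k i ∧ x k i < s i}).indicator
        (fun _ => (1 : ℝ)) t := by
    funext t
    classical
    rw [Nat.card_eq_fintype_card, Fintype.card_subtype, Finset.card_filter]
    push_cast
    refine Finset.sum_congr rfl fun k _ => ?_
    simp [Set.indicator_apply]
  rw [h]
  refine Finset.measurable_sum _ fun k _ => ?_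
  refine Measurable.indicator measurable_const ?_
  have : {s : Fin d → ℝ | ∀ i, 0 ≤ x k i ∧ x k i < s i} =
      ⋂ i, {s : Fin d → ℝ | 0 ≤ x k i ∧ x k i < s i} := by ext s; simp
  rw [this]
  refine MeasurableSet.iInter fun i => ?_
  exact (MeasurableSet.const _).inter
    (measurableSet_lt measurable_const (measurable_pi_apply i))

lemma volume_cube_lt_top (d : ℕ) : volume (Icc (0 : Fin d → ℝ) 1) < ⊤ :=
  isCompact_Icc.measure_lt_top

lemma abs_localDisc_le (x : Fin N → Fin d → ℝ) {t : Fin d → ℝ}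
    (ht : t ∈ Icc (0 : Fin d → ℝ) 1) : |localDisc x t| ≤ 1 := by
  unfold localDisc
  have h1 : (Nat.card {k : Fin N // ∀ i, 0 ≤ x k i ∧ x k i < t i} : ℝ) ≤ N := by
    have := Nat.card_le_card_of_injective
      (fun k : {k : Fin N // ∀ i, 0 ≤ x k i ∧ x k i < t i} => (k : Fin N))
      Subtype.val_injective
    rw [Nat.card_eq_fintype_card (α := Fin N), Fintype.card_fin] at this
    exact_mod_cast this
  have h2 : 0 ≤ (Nat.card {k : Fin N // ∀ i, 0 ≤ x k i ∧ x k i < t i} : ℝ) / N := by positivity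
  have h3 : (Nat.card {k : Fin N // ∀ i, 0 ≤ x k i ∧ x k i < t i} : ℝ) / N ≤ 1 :=
    div_le_one_of_le₀ h1 (by positivity)
  have h4 : 0 ≤ ∏ i, t i := Finset.prod_nonneg fun i _ => ht.1 i
  have h5 : ∏ i, t i ≤ 1 := Finset.prod_le_one (fun i _ => ht.1 i) fun i _ => ht.2 i
  rw [abs_le]
  constructor <;> linarith

lemma L1disc_ge (hN : 1 ≤ N) (x : Fin N → Fin d → ℝ) :
    (1 / 2) ^ d - N * (1 / 3) ^ d ≤ L1disc x := by
  have hint : ∀ k : ℕ, IntegrableOn (fun t : Fin d → ℝ => (∏ i, t i) ^ k)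
      (Icc (0 : Fin d → ℝ) 1) := by
    intro k
    exact (Continuous.continuousOn (by fun_prop)).integrableOn_compact isCompact_Icc
  have hint1 : Integrable (fun t : Fin d → ℝ => ∏ i, t i)
      (volume.restrict (Icc (0 : Fin d → ℝ) 1)) := by
    have h := hint 1
    simp only [pow_one] at h
    exact h
  have h1 : ∫ t in Icc (0 : Fin d → ℝ) 1, ((∏ i, t i) - N * (∏ i, t i) ^ 2) =
      (1 / 2) ^ d - N * (1 / 3) ^ d := by
    rw [integral_sub, integral_const_mul, integral_prod_pow d 2]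
    · have := integral_prod_pow d 1
      simp only [pow_one] at this
      rw [this]
      norm_num
    · exact hint1
    · exact (hint 2).const_mul _
  rw [← h1]
  unfold L1disc
  refine setIntegral_mono_on ?_ ?_ measurableSet_Icc ?_
  · refine Integrable.sub hint1 ((hint 2).const_mul _)
  · refine Measure.integrableOn_of_bounded (M := 1) (volume_cube_lt_top d).ne
      (measurable_localDisc x).abs.aestronglyMeasurable ?_
    rw [ae_restrict_iff' measurableSet_Icc]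
    filter_upwards with t ht
    rw [Real.norm_eq_abs, abs_abs]
    exact abs_localDisc_le x ht
  · intro t ht
    exact key hN x t fun i => ht.1 i

lemma disc_ge (hN : 1 ≤ N) : (1 / 2) ^ d - N * (1 / 3) ^ d ≤ disc N d := by
  have : Nonempty (Fin N → Fin d → Ico (0 : ℝ) 1) := ⟨fun _ _ => ⟨0, by simp⟩⟩
  exact le_ciInf fun x => L1disc_ge hN _

lemma Ninv_ge (d : ℕ) {ε : ℝ} :
    ENNReal.ofReal ((1 - ε) * (3 / 2) ^ d) ≤ (Ninv ε d : ℝ≥0∞) := by
  have h : ∀ N : ℕ, 1 ≤ N → disc N d ≤ ε * disc₀ d → (1 - ε) * (3 / 2) ^ d ≤ (N : ℝ) := by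
    intro N hN hle
    have h1 := (disc_ge (d := d) hN).trans hle
    unfold disc₀ at h1
    have h2 : (1 - ε) * (1 / 2 : ℝ) ^ d ≤ N * (1 / 3) ^ d := by linarith
    have h3 : (3 / 2 : ℝ) ^ d = (1 / 2) ^ d * 3 ^ d := by rw [← mul_pow]; norm_num
    have h4 : ((1 : ℝ) / 3) ^ d * 3 ^ d = 1 := by rw [← mul_pow]; norm_num
    calc (1 - ε) * (3 / 2) ^ d = ((1 - ε) * (1 / 2 : ℝ) ^ d) * 3 ^ d := by rw [h3]; ring
      _ ≤ (N * (1 / 3) ^ d) * 3 ^ d := by gcongr
      _ = N := by rw [mul_assoc, h4, mul_one]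
  by_cases htop : Ninv ε d = ⊤
  · rw [htop]; simp
  · obtain ⟨M, hM⟩ := ENat.ne_top_iff_exists.1 htop
    -- the infimum is attained
    have hmem : M ∈ {N : ℕ | 1 ≤ N ∧ disc N d ≤ ε * disc₀ d} := by
      by_contra hcon
      have h5 : ((M : ℕ∞) + 1) ≤ Ninv ε d := by
        refine le_iInf₂ fun N hN => ?_
        have h6 : Ninv ε d ≤ (N : ℕ∞) := iInf₂_le N hN
        rw [← hM] at h6
        have h7 : M ≤ N := by exact_mod_cast h6
        have h8 : M ≠ N := fun h => hcon (h ▸ hN)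
        have h9 : M + 1 ≤ N := by omega
        exact_mod_cast h9
      rw [← hM] at h5
      have h10 : M + 1 ≤ M := by exact_mod_cast h5
      omega
    rw [← hM]
    have h11 := h M hmem.1 hmem.2
    calc ENNReal.ofReal ((1 - ε) * (3 / 2) ^ d) ≤ ENNReal.ofReal (M : ℝ) :=
          ENNReal.ofReal_le_ofReal h11
      _ = ((M : ℕ∞) : ℝ≥0∞) := by simp

end proof

/-- **The `L_1`-discrepancy suffers from the curse of dimensionality**; quantitatively
`N_1^disc(ε,d) ≥ (1 - ε) (3/2)^d` for all `d` and all `ε ∈ (0,1)`. -/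
theorem result : Curse ∧ ∀ (d : ℕ) (ε : ℝ), 0 < ε → ε < 1 →
    ENNReal.ofReal ((1 - ε) * (3 / 2) ^ d) ≤ (Ninv ε d : ℝ≥0∞) := by
  refine ⟨⟨5 / 4, by norm_num, 1 / 2, by norm_num, by norm_num, {d | 4 ≤ d}, ?_, ?_⟩,
    fun d ε _ _ => Ninv_ge d⟩
  · exact Set.infinite_of_not_bddAbove (by
      rintro ⟨b, hb⟩
      have := hb (show b + 4 ∈ {d | 4 ≤ d} by simp)
      omega)
  · intro d hd ε _ hε2
    refine le_trans (ENNReal.ofReal_le_ofReal ?_) (Ninv_ge (ε := ε) d)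
    have h1 : (3 / 2 : ℝ) ^ d = (5 / 4) ^ d * (6 / 5) ^ d := by rw [← mul_pow]; norm_num
    have h2 : (2 : ℝ) ≤ (6 / 5) ^ d := by
      calc (2 : ℝ) ≤ (6 / 5) ^ 4 := by norm_num
        _ ≤ (6 / 5) ^ d := pow_le_pow_right₀ (by norm_num) hd
    have h3 : (0 : ℝ) < (5 / 4) ^ d := by positivity
    have h4 : 1 ≤ (1 - ε) * (6 / 5) ^ d := by nlinarith
    calc (5 / 4 : ℝ) ^ d = (5 / 4) ^ d * 1 := (mul_one _).symm
      _ ≤ (5 / 4) ^ d * ((1 - ε) * (6 / 5) ^ d) := by gcongr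
      _ = (1 - ε) * (3 / 2) ^ d := by rw [h1]; ring

end Pool.Agent.Results.MP_4b7d36_an.CurseL1
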